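import Pool.Agent.OR2.Nest

/-!
Polynomial time for the word problem of one-relator groups is preserved by balanced substitutions.
-/

set_option autoImplicit false

namespace Pool.Agent.Results.MP_804776_al.BalancedSubstitution

open Pool.Agent.OR2

/-- `WPP r`: the word problem of the one-relator group `⟨x_0, ..., x_{m-1} | r⟩` is decidable in
polynomial time (`Turing.TM2ComputableInPolyTime` of Mathlib; a word is written by `code`: the
letter `x_i ^ (± 1)` as `i` ones, a zero and a sign bit).

First part: the class of relators with this property contains the letters and the relators of the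
iterated Baumslag-Gersten groups and is closed under automorphisms of the free group, inverses,
adding or removing a letter which does not occur in the relator, and (in both directions) under
the substitutions `y ↦ y⁻¹ w y`, `w` a word without the letter `y`, for which the elements `w` and
`y` of `⟨x_0, ..., x_{m-1} | r⟩` are balanced: for some length function `l` (subadditive,
`l g⁻¹ = l g`) one has `l (w ^ k) = l (y ^ k) = k` for all `k ≥ 0`, for instance
`l = |χ| / |χ y|` for a homomorphism `χ` to the integers with `|χ w| = |χ y| ≠ 0`.

Second part (a consequence): the property holds for all relators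
`u⁻¹ w_1 ^ (w_2 ^ ( ... ^ (w_k ^ y)))`, where `a ^ b = b⁻¹ a b`, the words `u, w_1, ..., w_k` do not
contain the letter `y`, no `w_i` is in the commutator subgroup of the free group, and
`u⁻¹ w_1` is. -/
theorem result : Closed (fun _ r => WPP r) ∧
    ∀ {m : ℕ} {y : Fin m} {u w : FreeGroup (Fin m)} (ws : List (FreeGroup (Fin m))),
      u ∈ without y → w ∈ without y → w ∉ commutator (FreeGroup (Fin m)) →
      u⁻¹ * w ∈ commutator (FreeGroup (Fin m)) →
      (∀ v ∈ ws, v ∈ without y ∧ v ∉ commutator (FreeGroup (Fin m))) →
      WPP (u⁻¹ * nest (FreeGroup.of y) (w :: ws)) :=
  ⟨closed_wpp, fun ws hu hw hw' huw hws => nest_mem closed_wpp hu hw hw' huw ws hws⟩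

end Pool.Agent.Results.MP_804776_al.BalancedSubstitution
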