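import Pool.Agent.OR1.Final
import Pool.Agent.OR1.Systems

/-!
The word problem is decidable in polynomial time for every one-relator group whose relator is
obtained from a Baumslag-Solitar relator `t⁻¹ a t a ^ (-b)`, `b ≠ 0`, by finitely many
substitutions `y ↦ y⁻¹ x ^ (± 1) y` (`x ≠ y` letters of a finite alphabet). For two letters `a, t`
and the substitutions `t ↦ t⁻¹ a t` these are the Baumslag-Gersten group
`⟨a, t | a ^ (a ^ t) = a ^ b⟩` and its iterates `⟨a, t | a ^ (a ^ (a ^ t)) = a ^ b⟩`, ...
-/

namespace Pool.Agent.Results.MP_804776_al.IteratedBaumslagGersten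

open Pool.Agent.OR1

/-- `Rel b r`: the relator `r` is obtained from some `t⁻¹ a t a ^ (-b)`, `a ≠ t` letters, by
substitutions `y ↦ y⁻¹ x ^ (± 1) y`, `x ≠ y` letters. For every `b ≠ 0` and every such relator over
a finite alphabet the word problem of the one-relator group is decidable in polynomial time: a
Turing machine of Mathlib (`Turing.TM2ComputableInPolyTime`) computes in polynomial time a function
`f` on bit strings with `f (code w) = [true]` iff the word `w` is trivial in `⟨x_0, ..., x_{m-1} | r⟩`
(`code` writes the letter `x_i ^ (± 1)` as `i` ones, a zero and a sign bit). -/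
theorem result (b : ℤ) (hb : b ≠ 0) (m : ℕ) (r : FreeGroup (Fin m)) (hr : Rel b r) :
    ∃ f : List Bool → List Bool,
      Nonempty (Turing.TM2ComputableInPolyTime (fun x : List Bool => x)
        (fun x : List Bool => x) f) ∧
      ∀ w : List (Fin m × Bool), f (code w) = [true] ↔
        PresentedGroup.mk ({r} : Set (FreeGroup (Fin m))) (FreeGroup.mk w) = 1 := by
  obtain ⟨S, rfl⟩ := exists_numSys hb
  exact main S hr

end Pool.Agent.Results.MP_804776_al.IteratedBaumslagGersten
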